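import Mathlib

/-!
# Finite sets of positive integers without short gaps
-/

set_option autoImplicit false

open Finset

namespace Pool.Agent.H34.FP

/-- after an interval of the set the next element is at least twice as large -/
def PA (A : Finset ℕ) : Prop := ∀ a ∈ A, ∀ b ∈ A, a < b → a + 1 ∈ A ∨ 2 * a + 1 ≤ b

/-- right ends of the intervals -/
def Cs (A : Finset ℕ) : Finset ℕ := A.filter (fun a => a + 1 ∉ A)

/-- left ends of the intervals -/
def Bs (A : Finset ℕ) : Finset ℕ := A.filter (fun a => a - 1 ∉ A)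

lemma mem_Cs {A : Finset ℕ} {a : ℕ} : a ∈ Cs A ↔ a ∈ A ∧ a + 1 ∉ A := by
  unfold Cs
  rw [Finset.mem_filter]

lemma mem_Bs {A : Finset ℕ} {a : ℕ} : a ∈ Bs A ↔ a ∈ A ∧ a - 1 ∉ A := by
  unfold Bs
  rw [Finset.mem_filter]

/-- the set is determined by the ends of its intervals -/
lemma det {A A' : Finset ℕ} (h0 : 0 ∉ A) (h0' : 0 ∉ A') (hB : Bs A = Bs A') (hC : Cs A = Cs A') :
    A = A' := by
  have key : ∀ k : ℕ, k ∈ A ↔ k ∈ A' := by
    intro k
    induction k with
    | zero => exact ⟨fun h => absurd h h0, fun h => absurd h h0'⟩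
    | succ k ih =>
      by_cases hk : k ∈ A
      · have hk' := ih.1 hk
        have h1 : k ∈ Cs A ↔ k ∈ Cs A' := by rw [hC]
        rw [mem_Cs, mem_Cs] at h1
        tauto
      · have hk' : k ∉ A' := fun h => hk (ih.2 h)
        have h1 : k + 1 ∈ Bs A ↔ k + 1 ∈ Bs A' := by rw [hB]
        rw [mem_Bs, mem_Bs, Nat.add_sub_cancel] at h1
        tauto
  ext k
  exact key k

lemma log_lt {a b : ℕ} (ha : 1 ≤ a) (h : 2 * a + 1 ≤ b) : Nat.log 2 a < Nat.log 2 b := by
  have h1 : Nat.log 2 (a * 2) = Nat.log 2 a + 1 := Nat.log_mul_base (by norm_num) (by omega)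
  have h2 : Nat.log 2 (a * 2) ≤ Nat.log 2 b := Nat.log_mono_right (by omega)
  omega

lemma injOn_Cs {A : Finset ℕ} (hA : PA A) (h0 : 0 ∉ A) : Set.InjOn (Nat.log 2) (Cs A) := by
  have key : ∀ a ∈ Cs A, ∀ b ∈ Cs A, a < b → Nat.log 2 a < Nat.log 2 b := by
    intro a ha b hb hab
    rw [mem_Cs] at ha hb
    have ha0 : 1 ≤ a := by
      rcases Nat.eq_zero_or_pos a with h | h
      · rw [h] at ha
        exact absurd ha.1 h0
      · exact h
    rcases hA a ha.1 b hb.1 hab with h | h
    · exact absurd h ha.2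
    · exact log_lt ha0 h
  intro a ha b hb hab
  rcases lt_trichotomy a b with h | h | h
  · exact absurd hab (key a ha b hb h).ne
  · exact h
  · exact absurd hab.symm (key b hb a ha h).ne

lemma injOn_Bs {A : Finset ℕ} (hA : PA A) (h0 : 0 ∉ A) : Set.InjOn (Nat.log 2) (Bs A) := by
  have key : ∀ a ∈ Bs A, ∀ b ∈ Bs A, a < b → Nat.log 2 a < Nat.log 2 b := by
    intro a ha b hb hab
    rw [mem_Bs] at ha hb
    have ha0 : 1 ≤ a := by
      rcases Nat.eq_zero_or_pos a with h | h
      · rw [h] at ha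
        exact absurd ha.1 h0
      · exact h
    obtain ⟨c, hc⟩ := (A.filter (fun c => c < b)).exists_maximal ⟨a, by simp [ha.1, hab]⟩
    have h1 : c ∈ A ∧ c < b := Finset.mem_filter.1 hc.1
    have hac : a ≤ c := by
      by_contra h
      rw [not_le] at h
      have := hc.2 (Finset.mem_filter.2 ⟨ha.1, hab⟩) h.le
      omega
    rcases hA c h1.1 b hb.1 h1.2 with h | h
    · exfalso
      rcases lt_or_eq_of_le (Nat.succ_le_of_lt h1.2) with h2 | h2
      · have := hc.2 (Finset.mem_filter.2 ⟨h, h2⟩) (by omega)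
        omega
      · apply hb.2
        rw [← h2]
        simpa using h1.1
    · exact log_lt ha0 (by omega)
  intro a ha b hb hab
  rcases lt_trichotomy a b with h | h | h
  · exact absurd hab (key a ha b hb h).ne
  · exact h
  · exact absurd hab.symm (key b hb a ha h).ne

/-- few elements with different logarithms -/
lemma card_le_of_log {A X : Finset ℕ} (hX : X ⊆ A) (hinj : Set.InjOn (Nat.log 2) X) {e E s : ℕ}
    (hE : ∀ a ∈ A, Nat.log 2 a < E) (hs : ∑ a ∈ A, (e - Nat.log 2 a) < s * s) :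
    X.card ≤ 2 * s + (E - e) := by
  classical
  have hX3 : (X.filter (fun a => e ≤ Nat.log 2 a)).card ≤ E - e := by
    rw [← Nat.card_Ico e E]
    apply Finset.card_le_card_of_injOn (Nat.log 2)
    · intro a ha
      rw [Finset.mem_coe, Finset.mem_filter] at ha
      rw [Finset.coe_Ico, Set.mem_Ico]
      exact ⟨ha.2, hE a (hX ha.1)⟩
    · intro a ha b hb h
      rw [Finset.mem_coe, Finset.mem_filter] at ha hb
      exact hinj ha.1 hb.1 h
  have hX1 : (X.filter (fun a => Nat.log 2 a < e ∧ e ≤ Nat.log 2 a + s)).card ≤ s := by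
    have h1 : (X.filter (fun a => Nat.log 2 a < e ∧ e ≤ Nat.log 2 a + s)).card ≤
        (Finset.Ico (e - s) e).card := by
      apply Finset.card_le_card_of_injOn (Nat.log 2)
      · intro a ha
        rw [Finset.mem_coe, Finset.mem_filter] at ha
        rw [Finset.coe_Ico, Set.mem_Ico]
        omega
      · intro a ha b hb h
        rw [Finset.mem_coe, Finset.mem_filter] at ha hb
        exact hinj ha.1 hb.1 h
    rw [Nat.card_Ico] at h1
    omega
  have hX2 : (X.filter (fun a => Nat.log 2 a + s < e)).card ≤ s := by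
    by_contra hcon
    rw [not_le] at hcon
    have h1 : (X.filter (fun a => Nat.log 2 a + s < e)).card * s ≤ ∑ a ∈ A, (e - Nat.log 2 a) := by
      calc (X.filter (fun a => Nat.log 2 a + s < e)).card * s =
          ∑ a ∈ X.filter (fun a => Nat.log 2 a + s < e), s := by
            rw [Finset.sum_const, smul_eq_mul]
        _ ≤ ∑ a ∈ X.filter (fun a => Nat.log 2 a + s < e), (e - Nat.log 2 a) := by
            apply Finset.sum_le_sum
            intro a ha
            rw [Finset.mem_filter] at ha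
            omega
        _ ≤ _ := Finset.sum_le_sum_of_subset ((Finset.filter_subset _ _).trans hX)
    nlinarith
  have hcov : X ⊆ X.filter (fun a => e ≤ Nat.log 2 a) ∪
      (X.filter (fun a => Nat.log 2 a < e ∧ e ≤ Nat.log 2 a + s) ∪
        X.filter (fun a => Nat.log 2 a + s < e)) := by
    intro a ha
    rw [Finset.mem_union, Finset.mem_union, Finset.mem_filter, Finset.mem_filter, Finset.mem_filter]
    rcases le_or_gt e (Nat.log 2 a) with h | h
    · exact Or.inl ⟨ha, h⟩
    · rcases le_or_gt e (Nat.log 2 a + s) with h' | h'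
      · exact Or.inr (Or.inl ⟨ha, h, h'⟩)
      · exact Or.inr (Or.inr ⟨ha, h'⟩)
  have h1 := Finset.card_le_card hcov
  have h2 := Finset.card_union_le (X.filter (fun a => e ≤ Nat.log 2 a))
    (X.filter (fun a => Nat.log 2 a < e ∧ e ≤ Nat.log 2 a + s) ∪
        X.filter (fun a => Nat.log 2 a + s < e))
  have h3 := Finset.card_union_le (X.filter (fun a => Nat.log 2 a < e ∧ e ≤ Nat.log 2 a + s))
    (X.filter (fun a => Nat.log 2 a + s < e))
  omega

/-- the sets of at most `K` positive numbers smaller than `2 ^ M` -/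
def SetsK (K M : ℕ) : Finset (Finset ℕ) :=
  (univ : Finset (Fin K → Fin (2 ^ M))).image
    (fun f => (univ.image (fun i => ((f i : Fin (2 ^ M)) : ℕ))).erase 0)

lemma card_SetsK (K M : ℕ) : (SetsK K M).card ≤ 2 ^ (M * K) := by
  refine Finset.card_image_le.trans (le_of_eq ?_)
  rw [Finset.card_univ, Fintype.card_fun, Fintype.card_fin, Fintype.card_fin, ← pow_mul]

lemma mem_SetsK {K M : ℕ} {S : Finset ℕ} (h1 : S.card ≤ K) (h2 : ∀ s ∈ S, 1 ≤ s ∧ s < 2 ^ M) :
    S ∈ SetsK K M := by
  unfold SetsK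
  rw [Finset.mem_image]
  have h0 : 0 < 2 ^ M := by positivity
  refine ⟨fun i => if h : (i : ℕ) < S.card then ⟨(S.equivFin.symm ⟨i, h⟩ : ℕ),
    (h2 _ (S.equivFin.symm ⟨i, h⟩).2).2⟩ else ⟨0, h0⟩, Finset.mem_univ _, ?_⟩
  ext s
  rw [Finset.mem_erase, Finset.mem_image]
  constructor
  · rintro ⟨hs, i, -, hi⟩
    by_cases h : (i : ℕ) < S.card
    · simp only [h, dite_true] at hi
      rw [← hi]
      exact (S.equivFin.symm ⟨i, h⟩).2
    · simp only [h, dite_false] at hi
      exact absurd hi.symm hs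
  · intro hs
    refine ⟨by have := (h2 s hs).1; omega, ?_⟩
    have h3 := (S.equivFin ⟨s, hs⟩).2
    refine ⟨⟨(S.equivFin ⟨s, hs⟩ : ℕ), by omega⟩, Finset.mem_univ _, ?_⟩
    simp only [h3, dite_true]
    simp

end Pool.Agent.H34.FP
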