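import Pool.Agent.H34.FP.Light
import Pool.Agent.H34.FP.Sets

/-!
# The small sizes below a leaf and the power sums of the large ones
-/

set_option autoImplicit false

open Finset

namespace Pool.Agent.H34.FP

open Pool.Agent.H13R3.WB Pool.Agent.W5h81.RF

variable {P : Type} [Fintype P] [PartialOrder P] [DecidableEq P] [DecidableRel (α := P) (· ≤ ·)]

omit [DecidableEq P] in
lemma mem_lowS {x : P} {E k : ℕ} : k ∈ lowS x E ↔ ∃ u, u ≤ x ∧ Nat.log 2 (sz u) < E ∧ sz u = k := by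
  unfold lowS
  rw [Finset.mem_image]
  constructor
  · rintro ⟨u, hu, h⟩
    rw [Finset.mem_filter, mem_Dn] at hu
    exact ⟨u, hu.1, hu.2, h⟩
  · rintro ⟨u, h1, h2, h3⟩
    exact ⟨u, Finset.mem_filter.2 ⟨mem_Dn.2 h1, h2⟩, h3⟩

omit [DecidableEq P] in
lemma zero_notMem_lowS {x : P} {E : ℕ} : 0 ∉ lowS x E := by
  rw [mem_lowS]
  rintro ⟨u, _, _, h⟩
  have := one_le_sz u
  omega

omit [DecidableEq P] in
lemma lowS_lt {x : P} {E k : ℕ} (h : k ∈ lowS x E) : 1 ≤ k ∧ k < 2 ^ E ∧ Nat.log 2 k < E := by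
  rw [mem_lowS] at h
  obtain ⟨u, _, h2, rfl⟩ := h
  exact ⟨one_le_sz u, Nat.lt_pow_of_log_lt (by norm_num) h2, h2⟩

omit [DecidableEq P] in
/-- the small sizes below a leaf with a light path -/
lemma PA_lowS (hP : Forest P) {x : P} {J E : ℕ} (hEJ : E ≤ J)
    (hx : ∀ u v, u < v → v ≤ x → sz u < 2 ^ J →
        (∃ w, w ≤ x ∧ sz w = sz v + 1) ∨ 2 * sz v + 1 ≤ sz u) : PA (lowS x E) := by
  intro a ha b hb hab
  have hb2 := lowS_lt hb
  rw [mem_lowS] at ha hb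
  obtain ⟨v, hv, hv2, rfl⟩ := ha
  obtain ⟨u, hu, hu2, rfl⟩ := hb
  have huv : u < v := by
    rcases hP x u v hu hv with h | h
    · exact lt_of_le_of_ne h fun h' => by rw [h'] at hab; omega
    · rcases h.eq_or_lt with h' | h'
      · rw [h'] at hab; omega
      · have := sz_lt h'
        omega
  have h1 : sz u < 2 ^ J := lt_of_lt_of_le hb2.2.1 (Nat.pow_le_pow_right (by norm_num) hEJ)
  rcases hx u v huv hv h1 with ⟨w, hw, hw2⟩ | h
  · left
    rw [mem_lowS]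
    refine ⟨w, hw, ?_, hw2⟩
    rw [hw2]
    exact lt_of_le_of_lt (Nat.log_mono_right (by omega)) hu2
  · exact Or.inr h

omit [DecidableEq P] in
lemma sum_lowS (hP : Forest P) (x : P) (e E : ℕ) :
    ∑ a ∈ lowS x E, (e - Nat.log 2 a) ≤ ∑ u ∈ Dn x, (e - Nat.log 2 (sz u)) := by
  unfold lowS
  rw [Finset.sum_image]
  · exact Finset.sum_le_sum_of_subset (Finset.filter_subset _ _)
  · intro u hu v hv h
    rw [Finset.mem_coe, Finset.mem_filter] at hu hv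
    exact injOn_Dn hP x hu.1 hv.1 h

omit [DecidableEq P] in
lemma mom_eq (hP : Forest P) {x y : P} {E : ℕ} (h : lowS x E = lowS y E) {j : ℕ} (hj : j < E) (r : ℕ) :
    mom sz (Dn x) j r = mom sz (Dn y) j r := by
  classical
  have key : ∀ z : P, mom sz (Dn z) j r =
      ∑ k ∈ (lowS z E).filter (fun k => Nat.log 2 k = j), (xx k) ^ r := by
    intro z
    rw [← sm_image hj]
    unfold mom
    rw [Finset.sum_image]
    intro u hu v hv h
    simp only [sm, Finset.coe_filter, Set.mem_ofPred_eq] at hu hv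
    exact injOn_Dn hP z hu.1 hv.1 h
  rw [key, key, h]

omit [DecidableEq P] in
lemma hps_split (hP : Forest P) (x : P) {e E : ℕ} (heE : e + 3 ≤ E) (r : ℕ) :
    hps sz (Dn x) e r = ∑ k ∈ (lowS x E).filter (fun k => e + 3 ≤ Nat.log 2 k),
        ((2 : ℝ) ^ (e + 2) / k) ^ r +
      ∑ u ∈ bg sz (Dn x) E, ((2 : ℝ) ^ (e + 2) / sz u) ^ r := by
  classical
  unfold hps
  rw [← Finset.sum_filter_add_sum_filter_not (bg sz (Dn x) (e + 3)) (fun u => Nat.log 2 (sz u) < E)]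
  congr 1
  · have e1 : (lowS x E).filter (fun k => e + 3 ≤ Nat.log 2 k) =
        ((bg sz (Dn x) (e + 3)).filter (fun u => Nat.log 2 (sz u) < E)).image sz := by
      ext k
      simp only [bg, Finset.mem_image, Finset.mem_filter, mem_lowS, mem_Dn]
      constructor
      · rintro ⟨⟨u, h1, h2, rfl⟩, h3⟩
        exact ⟨u, ⟨⟨h1, h3⟩, h2⟩, rfl⟩
      · rintro ⟨u, ⟨⟨h1, h3⟩, h2⟩, rfl⟩
        exact ⟨⟨u, h1, h2, rfl⟩, h3⟩
    rw [e1, Finset.sum_image]
    intro u hu v hv h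
    simp only [bg, Finset.coe_filter, Finset.mem_filter, Set.mem_ofPred_eq] at hu hv
    exact injOn_Dn hP x hu.1.1 hv.1.1 h
  · apply Finset.sum_congr _ fun _ _ => rfl
    ext u
    simp only [bg, Finset.mem_filter, not_lt]
    constructor
    · rintro ⟨⟨h1, h2⟩, h3⟩
      exact ⟨h1, h3⟩
    · rintro ⟨h1, h3⟩
      exact ⟨⟨h1, heE.trans h3⟩, h3⟩

omit [DecidableEq P] in
lemma tail_le (hP : Forest P) (x : P) (e g : ℕ) {r : ℕ} (hr : 2 ≤ r) :
    ∑ u ∈ bg sz (Dn x) (e + 2 + g), ((2 : ℝ) ^ (e + 2) / sz u) ^ r ≤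
      2 ^ (e + 3) * (1 / 2) ^ (g * (r - 1)) := by
  obtain ⟨q, rfl⟩ : ∃ q, r = q + 2 := ⟨r - 2, by omega⟩
  have h1 : ∀ u ∈ bg sz (Dn x) (e + 2 + g), ((2 : ℝ) ^ (e + 2) / sz u) ^ (q + 2) ≤
      (2 ^ (e + 2)) ^ 2 * ((1 / 2) ^ g) ^ q * (((sz u : ℝ) ^ 2)⁻¹) := by
    intro u hu
    have h2 : ((2 ^ (e + 2 + g) : ℕ) : ℝ) ≤ sz u := by
      exact_mod_cast two_pow_le_of_mem_bg sz (fun u _ => one_le_sz u) hu
    have h3 : (0 : ℝ) < sz u := lt_of_lt_of_le (by positivity) h2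
    have h4 : (2 : ℝ) ^ (e + 2) / sz u ≤ (1 / 2) ^ g := by
      rw [div_le_iff₀ h3, one_div_pow, one_div, inv_mul_eq_div, le_div_iff₀ (by positivity),
        ← pow_add]
      exact_mod_cast h2
    calc ((2 : ℝ) ^ (e + 2) / sz u) ^ (q + 2) =
        ((2 : ℝ) ^ (e + 2) / sz u) ^ q * ((2 : ℝ) ^ (e + 2) / sz u) ^ 2 := pow_add _ _ _
      _ ≤ ((1 / 2) ^ g) ^ q * ((2 : ℝ) ^ (e + 2) / sz u) ^ 2 := by
          apply mul_le_mul_of_nonneg_right _ (by positivity)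
          exact pow_le_pow_left₀ (by positivity) h4 q
      _ = _ := by rw [div_pow]; field_simp
  refine (Finset.sum_le_sum h1).trans ?_
  rw [← Finset.mul_sum]
  refine (mul_le_mul_of_nonneg_left (sum_inv_sq_bg sz (injOn_Dn hP x) (fun u _ => one_le_sz u)
    (e + 2 + g)) (by positivity)).trans (le_of_eq ?_)
  have e1 : g * (q + 2 - 1) = g * q + g := by
    rw [show q + 2 - 1 = q + 1 by omega]
    ring
  rw [e1, pow_add (1 / 2 : ℝ) (g * q) g, pow_mul, pow_add (2 : ℝ) (e + 2) g,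
    show e + 3 = e + 2 + 1 by ring, pow_succ (2 : ℝ) (e + 2), one_div_pow (2 : ℝ) g]
  field_simp

omit [DecidableEq P] in
/-- the high power sums are automatically close -/
lemma hps_close (hP : Forest P) {x y : P} {e g : ℕ} (hg : 1 ≤ g)
    (h : lowS x (e + 2 + g) = lowS y (e + 2 + g)) {r : ℕ} (hr : 2 ≤ r) :
    |hps sz (Dn x) e r - hps sz (Dn y) e r| ≤ 2 ^ (e + 3) * (1 / 2) ^ (g * (r - 1)) := by
  rw [hps_split hP x (show e + 3 ≤ e + 2 + g by omega), hps_split hP y (show e + 3 ≤ e + 2 + g by omega),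
    h, add_sub_add_left_eq_sub]
  have hx := tail_le hP x e g hr
  have hy := tail_le hP y e g hr
  have hx0 : 0 ≤ ∑ u ∈ bg sz (Dn x) (e + 2 + g), ((2 : ℝ) ^ (e + 2) / sz u) ^ r :=
    Finset.sum_nonneg fun _ _ => by positivity
  have hy0 : 0 ≤ ∑ u ∈ bg sz (Dn y) (e + 2 + g), ((2 : ℝ) ^ (e + 2) / sz u) ^ r :=
    Finset.sum_nonneg fun _ _ => by positivity
  rw [abs_le]
  constructor <;> linarith

end Pool.Agent.H34.FP
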