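import Pool.Agent.H34.L.W5h81.RF.Pigeon2

/-!
# Light paths in rooted forests
-/

set_option autoImplicit false

open Finset

namespace Pool.Agent.H34.FP

open Pool.Agent.H13R3.WB Pool.Agent.W5h81.RF

variable {P : Type} [Fintype P] [PartialOrder P] [DecidableEq P] [DecidableRel (α := P) (· ≤ ·)]

omit [DecidableEq P] in
lemma sz_eq (u : P) : sz u = (univ.filter (fun v => u ≤ v)).card := by
  unfold sz
  congr

omit [DecidableEq P] in
/-- following the smallest child, the sizes drop by one or are at least halved -/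
lemma light_leaf (hP : Forest P) : ∀ (n : ℕ) (z : P), sz z ≤ n →
    ∃ x, z ≤ x ∧ (∀ v, x ≤ v → v = x) ∧ ∀ u v, z ≤ u → u < v → v ≤ x →
      (∃ w, z ≤ w ∧ w ≤ x ∧ sz w = sz v + 1) ∨ 2 * sz v + 1 ≤ sz u := by
  classical
  intro n
  induction n with
  | zero =>
    intro z hz
    have := one_le_sz z
    omega
  | succ n ih =>
    intro z hz
    obtain ⟨M, hM⟩ : ∃ M : Finset P, M = univ.filter (fun c => z < c ∧ ∀ d, z < d → d ≤ c → d = c) :=
      ⟨_, rfl⟩
    have hmM : ∀ c, c ∈ M ↔ z < c ∧ ∀ d, z < d → d ≤ c → d = c := by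
      intro c
      rw [hM, Finset.mem_filter]
      simp
    have hbelow : ∀ v, z < v → ∃ c ∈ M, c ≤ v := by
      intro v hv
      obtain ⟨c, hc⟩ := (univ.filter (fun c => z < c ∧ c ≤ v)).exists_minimal ⟨v, by simp [hv]⟩
      have h1 := hc.1
      simp only [Finset.mem_filter, Finset.mem_univ, true_and] at h1
      refine ⟨c, (hmM c).2 ⟨h1.1, fun d hd hdc => ?_⟩, h1.2⟩
      exact le_antisymm hdc (hc.2 (by simp [hd, hdc.trans h1.2]) hdc)
    rcases M.eq_empty_or_nonempty with h0 | h0
    · have hmax : ∀ v, z ≤ v → v = z := by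
        intro v hv
        by_contra hne
        obtain ⟨c, hc, -⟩ := hbelow v (lt_of_le_of_ne hv (Ne.symm hne))
        rw [h0] at hc
        simp at hc
      refine ⟨z, le_rfl, hmax, ?_⟩
      intro u v hzu huv hvz
      exact absurd (hzu.trans_lt huv) (not_lt_of_ge hvz)
    · obtain ⟨c, hc, hcmin⟩ := Finset.exists_min_image M (fun c => sz c) h0
      obtain ⟨hzc, hcm⟩ := (hmM c).1 hc
      have hszc : sz c < sz z := sz_lt hzc
      obtain ⟨x, hcx, hxm, hx⟩ := ih c (by omega)
      have hstep : sz z = sz c + 1 ∨ 2 * sz c + 1 ≤ sz z := by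
        by_cases hall : ∀ d ∈ M, d = c
        · left
          have e : univ.filter (fun v => z ≤ v) = insert z (univ.filter (fun v => c ≤ v)) := by
            ext v
            rw [Finset.mem_insert, Finset.mem_filter, Finset.mem_filter]
            simp only [Finset.mem_univ, true_and]
            constructor
            · intro h
              rcases h.eq_or_lt with h | h
              · exact Or.inl h.symm
              · obtain ⟨d, hd, hdv⟩ := hbelow v h
                rw [hall d hd] at hdv
                exact Or.inr hdv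
            · rintro (h | h)
              · exact h.ge
              · exact hzc.le.trans h
          rw [sz_eq, sz_eq, e, Finset.card_insert_of_notMem]
          simp only [Finset.mem_filter, Finset.mem_univ, true_and]
          exact not_le_of_gt hzc
        · right
          push Not at hall
          obtain ⟨d, hd, hdc⟩ := hall
          obtain ⟨hzd, hdm⟩ := (hmM d).1 hd
          have hdisj : Disjoint (univ.filter (fun v => c ≤ v)) (univ.filter (fun v => d ≤ v)) := by
            rw [Finset.disjoint_left]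
            intro v hv hv'
            rw [Finset.mem_filter] at hv hv'
            rcases hP v c d hv.2 hv'.2 with h | h
            · exact hdc (hdm c hzc h).symm
            · exact hdc (hcm d hzd h)
          have hsub : insert z (univ.filter (fun v => c ≤ v) ∪ univ.filter (fun v => d ≤ v)) ⊆
              univ.filter (fun v => z ≤ v) := by
            intro v hv
            rw [Finset.mem_insert, Finset.mem_union, Finset.mem_filter, Finset.mem_filter] at hv
            rw [Finset.mem_filter]
            refine ⟨Finset.mem_univ _, ?_⟩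
            rcases hv with h | h | h
            · exact h.ge
            · exact hzc.le.trans h.2
            · exact hzd.le.trans h.2
          have h1 := Finset.card_le_card hsub
          rw [Finset.card_insert_of_notMem, Finset.card_union_of_disjoint hdisj] at h1
          · have h2 := hcmin d hd
            rw [← sz_eq, ← sz_eq, ← sz_eq] at h1
            omega
          · rw [Finset.mem_union, Finset.mem_filter, Finset.mem_filter]
            rintro (h | h)
            · exact not_le_of_gt hzc h.2
            · exact not_le_of_gt hzd h.2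
      refine ⟨x, hzc.le.trans hcx, hxm, ?_⟩
      intro u v hzu huv hvx
      rcases hzu.eq_or_lt with h | h
      · subst h
        -- `u = z`
        have hcv : c ≤ v := by
          rcases hP x c v hcx hvx with h1 | h1
          · exact h1
          · exact (hcm v huv h1).ge
        rcases hcv.eq_or_lt with h1 | h1
        · subst h1
          rcases hstep with h2 | h2
          · exact Or.inl ⟨z, le_rfl, hzc.le.trans hcx, h2⟩
          · exact Or.inr h2
        · rcases hx c v le_rfl h1 hvx with ⟨w, h2, h3, h4⟩ | h2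
          · exact Or.inl ⟨w, hzc.le.trans h2, h3, h4⟩
          · right
            omega
      · have hcu : c ≤ u := by
          rcases hP x c u hcx (huv.le.trans hvx) with h1 | h1
          · exact h1
          · exact (hcm u h h1).ge
        rcases hx u v hcu huv hvx with ⟨w, h2, h3, h4⟩ | h2
        · exact Or.inl ⟨w, hzc.le.trans h2, h3, h4⟩
        · exact Or.inr h2

/-- selection of a family of leaves without common small ancestors, with light paths -/
lemma select_light (hP : Forest P) (Lv : Finset P) (hLv : ∀ x ∈ Lv, ∀ v, x ≤ v → v = x) (J : ℕ)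
    (hJ : 1 ≤ J) : ∃ S : Finset P, Lv.card ≤ 2 ^ J * S.card ∧
      (∀ x ∈ S, ∀ v, x ≤ v → v = x) ∧
      (∀ x ∈ S, ∀ y ∈ S, x ≠ y → ∀ u, u ≤ x → u ≤ y → 2 ^ J ≤ sz u) ∧
      ∀ x ∈ S, ∀ u v, u < v → v ≤ x → sz u < 2 ^ J →
        (∃ w, w ≤ x ∧ sz w = sz v + 1) ∨ 2 * sz v + 1 ≤ sz u := by
  classical
  have h2J : 2 ≤ 2 ^ J := by
    calc 2 = 2 ^ 1 := by norm_num
      _ ≤ 2 ^ J := Nat.pow_le_pow_right (by norm_num) hJ
  have hex : ∀ x : P, ∃ q, x ∈ Lv → q ≤ x ∧ sz q < 2 ^ J ∧ ∀ u, u ≤ x → sz u < 2 ^ J → q ≤ u := by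
    intro x
    by_cases hx : x ∈ Lv
    · have hne : ((Dn x).filter (fun u => sz u < 2 ^ J)).Nonempty := by
        refine ⟨x, Finset.mem_filter.2 ⟨mem_Dn.2 le_rfl, ?_⟩⟩
        rw [sz_max (hLv x hx)]
        omega
      obtain ⟨q, hq⟩ := ((Dn x).filter (fun u => sz u < 2 ^ J)).exists_minimal hne
      have h1 := hq.1
      simp only [Finset.mem_filter, mem_Dn] at h1
      refine ⟨q, fun _ => ⟨h1.1, h1.2, fun u hu hu2 => ?_⟩⟩
      rcases hP x q u h1.1 hu with h | h
      · exact h
      · exact hq.2 (Finset.mem_filter.2 ⟨mem_Dn.2 hu, hu2⟩) h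
    · exact ⟨x, fun h => absurd h hx⟩
  choose ρ hρ using hex
  have hlight := fun z : P => light_leaf hP (sz z) z le_rfl
  choose g hg1 hg2 hg3 using hlight
  -- the property of the roots
  have hroot : ∀ r ∈ Lv.image ρ, sz r < 2 ^ J ∧ ∀ u, u ≤ g r → sz u < 2 ^ J → r ≤ u := by
    intro r hr
    obtain ⟨x, hx, rfl⟩ := Finset.mem_image.1 hr
    obtain ⟨h1, h2, h3⟩ := hρ x hx
    refine ⟨h2, fun u hu hu2 => ?_⟩
    rcases hP (g (ρ x)) (ρ x) u (hg1 _) hu with h | h
    · exact h
    · exact h3 u (h.trans h1) hu2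
  have hinj : ∀ r ∈ Lv.image ρ, ∀ r' ∈ Lv.image ρ, ∀ u, sz u < 2 ^ J → u ≤ g r → u ≤ g r' → r = r' := by
    intro r hr r' hr' u hu h1 h2
    obtain ⟨a1, a2⟩ := hroot r hr
    obtain ⟨b1, b2⟩ := hroot r' hr'
    have c1 := a2 u h1 hu
    have c2 := b2 u h2 hu
    exact le_antisymm (a2 r' (c2.trans h1) b1) (b2 r (c1.trans h2) a1)
  refine ⟨(Lv.image ρ).image g, ?_, ?_, ?_, ?_⟩
  · have h1 : ((Lv.image ρ).image g).card = (Lv.image ρ).card := by
      apply Finset.card_image_of_injOn
      intro r hr r' hr' h
      refine hinj r hr r' hr' (g r) ?_ le_rfl h.le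
      rw [sz_max (hg2 r)]
      omega
    rw [h1]
    apply Finset.card_le_mul_card_image
    intro r hr
    obtain ⟨x, hx, rfl⟩ := Finset.mem_image.1 hr
    have h2 : Lv.filter (fun y => ρ y = ρ x) ⊆ univ.filter (fun v => ρ x ≤ v) := by
      intro y hy
      rw [Finset.mem_filter] at hy ⊢
      exact ⟨Finset.mem_univ _, hy.2 ▸ (hρ y hy.1).1⟩
    refine (Finset.card_le_card h2).trans ?_
    have h3 := (hρ x hx).2.1
    unfold sz at h3
    convert h3.le
  · intro x hx
    obtain ⟨r, _, rfl⟩ := Finset.mem_image.1 hx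
    exact hg2 r
  · intro x hx y hy hxy u hux huy
    obtain ⟨r, hr, rfl⟩ := Finset.mem_image.1 hx
    obtain ⟨r', hr', rfl⟩ := Finset.mem_image.1 hy
    by_contra hu
    rw [not_le] at hu
    exact hxy (by rw [hinj r hr r' hr' u hu hux huy])
  · intro x hx u v huv hvx hu
    obtain ⟨r, hr, rfl⟩ := Finset.mem_image.1 hx
    have h1 := (hroot r hr).2 u (huv.le.trans hvx) hu
    rcases hg3 r u v h1 huv hvx with ⟨w, _, h3, h4⟩ | h
    · exact Or.inl ⟨w, h3, h4⟩
    · exact Or.inr h

end Pool.Agent.H34.FP
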