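import Pool.Agent.H34.FP.Hps

/-!
# Forests with many leaves have a nearly balanced pair: the bound `2 ^ (500 s³)` for `2 ^ (-s²)`
-/

set_option autoImplicit false

open Finset

namespace Pool.Agent.H34.FP

open Pool.Agent.H13R3.WB Pool.Agent.W5h81.RF

lemma card_ineq3 (s : ℕ) (hs : 1 ≤ s) :
    2 ^ (s * s + s + 2) * (s * s * ((2 ^ ((s * s + s + 1) * (3 * s + 2)) *
      2 ^ ((s * s + s + 1) * (3 * s + 2))) * (2 * 2 ^ (4 * (s * s) + s + 16) + 1) ^ (3 * s + 14))) <
      2 ^ (500 * s ^ 3) := by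
  have h1 : 2 * 2 ^ (4 * (s * s) + s + 16) + 1 ≤ 2 ^ (4 * (s * s) + s + 18) := by
    have : 2 ^ (4 * (s * s) + s + 18) = 4 * 2 ^ (4 * (s * s) + s + 16) := by
      rw [show 4 * (s * s) + s + 18 = 4 * (s * s) + s + 16 + 2 by ring, pow_add]; ring
    have h2 : 1 ≤ 2 ^ (4 * (s * s) + s + 16) := Nat.one_le_two_pow
    omega
  have h2 : s * s ≤ 2 ^ (s * s) := (Nat.lt_two_pow_self).le
  calc 2 ^ (s * s + s + 2) * (s * s * ((2 ^ ((s * s + s + 1) * (3 * s + 2)) *
      2 ^ ((s * s + s + 1) * (3 * s + 2))) * (2 * 2 ^ (4 * (s * s) + s + 16) + 1) ^ (3 * s + 14))) ≤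
      2 ^ (s * s + s + 2) * (2 ^ (s * s) * ((2 ^ ((s * s + s + 1) * (3 * s + 2)) *
      2 ^ ((s * s + s + 1) * (3 * s + 2))) * (2 ^ (4 * (s * s) + s + 18)) ^ (3 * s + 14))) := by
        apply Nat.mul_le_mul_left
        apply Nat.mul_le_mul h2
        apply Nat.mul_le_mul_left
        exact Nat.pow_le_pow_left h1 _
    _ = 2 ^ (s * s + s + 2 + (s * s + ((s * s + s + 1) * (3 * s + 2) + (s * s + s + 1) * (3 * s + 2) +
        (4 * (s * s) + s + 18) * (3 * s + 14)))) := by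
        rw [← pow_mul, ← pow_add, ← pow_add, ← pow_add, ← pow_add]
    _ < 2 ^ (500 * s ^ 3) := by
        apply Nat.pow_lt_pow_right (by norm_num)
        have a1 : 1 ≤ s * s := Nat.one_le_iff_ne_zero.2 (by positivity)
        have a2 : s ≤ s * s := by nlinarith
        have a3 : s * s ≤ s * s * s := by nlinarith
        have a4 : s ≤ s * s * s := a2.trans a3
        have a5 : 1 ≤ s * s * s := a1.trans a3
        have e : s ^ 3 = s * s * s := by ring
        rw [e]
        nlinarith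

variable {P : Type} [Fintype P] [PartialOrder P] [DecidableEq P] [DecidableRel (α := P) (· ≤ ·)]

/-- the real numbers to be rounded -/
noncomputable def vala (ex : P → ℕ) (b : ℝ) (K : ℕ) (x : P) (p : Fin K) : ℝ :=
  if (p : ℕ) = 0 then 0 else
    if (p : ℕ) = 1 then hps sz (Dn x) (ex x) 1 - 2 ^ (ex x + 2) * b else
      hps sz (Dn x) (ex x) p

omit [DecidableEq P] in
lemma vala_eq {ex : P → ℕ} {b : ℝ} {K : ℕ} {x : P} {r : ℕ} (hr0 : 1 ≤ r) (hr : r < K) :
    vala ex b K x ⟨r, hr⟩ = hps sz (Dn x) (ex x) r -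
      (if r = 1 then 2 ^ (ex x + 2) * b else 0) := by
  unfold vala
  by_cases h1 : r = 1
  · subst h1
    simp
  · have h0 : r ≠ 0 := by omega
    simp [h0, h1]

/-- **forests with many leaves** -/
theorem many_leaves3 (hP : Forest P) (s : ℕ) (hs : 1 ≤ s) (Lv : Finset P)
    (hLv : ∀ x ∈ Lv, ∀ v, x ≤ v → v = x) (hc : 2 ^ (500 * s ^ 3) ≤ Lv.card) :
    ∃ x y : P, ¬ x ≤ y ∧ ¬ y ≤ x ∧ |prob P x y - 1 / 2| ≤ (1 / 2) ^ (s * s) := by
  classical
  obtain ⟨N, hNs⟩ : ∃ N, N = s * s := ⟨_, rfl⟩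
  have hN : 1 ≤ N := by rw [hNs]; exact Nat.one_le_iff_ne_zero.2 (by positivity)
  rw [← hNs]
  obtain ⟨J, hJ⟩ : ∃ J, J = N + s + 2 := ⟨_, rfl⟩
  obtain ⟨S, hSc, hSm, hSJ, hSlight⟩ := select_light hP Lv hLv J (by omega)
  have hSpos : 0 < S.card := by
    have : 0 < Lv.card := lt_of_lt_of_le (by positivity) hc
    by_contra h
    have h0 : S.card = 0 := by omega
    rw [h0] at hSc
    omega
  have hSne : S.Nonempty := Finset.card_pos.1 hSpos
  obtain ⟨l, hl, hmin⟩ := Finset.exists_min_image S (fun x => bS sz (Dn x) J) hSne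
  have hJN : (2 : ℝ) ^ N ≤ 2 ^ J := pow_le_pow_right₀ (by norm_num) (by omega)
  by_cases h : ∃ x ∈ S, 2 ^ J + 3 ≤ bS sz (Dn x) J - bS sz (Dn l) J
  · obtain ⟨x, hx, hxb⟩ := h
    obtain ⟨w, h1, h2, h3⟩ := caseB hP (x := x) (hSm l hl) J (by omega) hxb
    refine ⟨w, l, h1, h2, h3.trans ?_⟩
    rw [one_div_pow]
    exact one_div_le_one_div_of_le (by positivity) (by linarith)
  push Not at h
  have hdi := injOn_Dn hP
  have hex : ∀ x : P, ∃ e, x ∈ S → e + 1 ≤ N ∧ N ≤ ∑ u ∈ Dn x, (e + 1 - Nat.log 2 (sz u)) ∧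
      ∑ u ∈ Dn x, (e - Nat.log 2 (sz u)) < N := by
    intro x
    by_cases hx : x ∈ S
    · obtain ⟨e, he⟩ := exists_e (hSm x hx) hN
      exact ⟨e, fun _ => he⟩
    · exact ⟨0, fun h => absurd h hx⟩
  choose ex hex using hex
  obtain ⟨M, hM⟩ : ∃ M : ℤ, M = 2 ^ (4 * N + s + 16) := ⟨_, rfl⟩
  obtain ⟨K, hK⟩ : ∃ K, K = 3 * s + 14 := ⟨_, rfl⟩
  obtain ⟨val, hval⟩ : ∃ val : P → Fin K → ℝ,
    val = vala ex (bS sz (Dn l) J) K := ⟨_, rfl⟩
  have hvalb : ∀ x ∈ S, ∀ p, |val x p| ≤ 2 ^ (2 * N + s + 5) := by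
    intro x hx p
    obtain ⟨he1, he2, he3⟩ := hex x hx
    rw [hval]
    unfold vala
    split_ifs with h2 h3
    · rw [abs_zero]
      positivity
    · have a1 := bS_mono x (show ex x + 3 ≤ J by omega)
      have a2 := bS_le hdi x (ex x + 3) J
      have a3 := hmin x hx
      have a4 := h x hx
      rw [hps_one, ← mul_sub, abs_of_nonneg (mul_nonneg (by positivity) (by linarith))]
      have a5 : bS sz (Dn x) (ex x + 3) - bS sz (Dn l) J ≤ 2 ^ (N + s + 4) := by
        have : (2 : ℝ) ^ (N + s + 4) = 4 * 2 ^ J := by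
          rw [hJ, show N + s + 4 = N + s + 2 + 2 by ring, pow_add (2 : ℝ) (N + s + 2) 2]
          ring
        have a6 : (4 : ℝ) ≤ 2 ^ J := by
          calc (4 : ℝ) = 2 ^ 2 := by norm_num
            _ ≤ 2 ^ J := pow_le_pow_right₀ (by norm_num) (by omega)
        linarith
      calc (2 : ℝ) ^ (ex x + 2) * (bS sz (Dn x) (ex x + 3) - bS sz (Dn l) J) ≤
          2 ^ (N + 1) * 2 ^ (N + s + 4) := by
            apply mul_le_mul _ a5 (by linarith) (by positivity)
            exact pow_le_pow_right₀ (by norm_num) (by omega)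
        _ = 2 ^ (2 * N + s + 5) := by rw [← pow_add]; congr 1; ring
    · rw [abs_of_nonneg (hps_nonneg x _ _)]
      refine (hps_le hdi x _ (by omega)).trans ?_
      exact pow_le_pow_right₀ (by norm_num) (by omega)
  obtain ⟨T, hT⟩ : ∃ T : Finset (ℕ × (Finset ℕ × Finset ℕ) × (Fin K → ℤ)), T =
      Finset.range N ×ˢ ((SetsK (3 * s + 2) (N + s + 1) ×ˢ SetsK (3 * s + 2) (N + s + 1)) ×ˢ
        (Fintype.piFinset fun _ => Finset.Icc (-M) M)) := ⟨_, rfl⟩
  obtain ⟨code, hcd⟩ : ∃ code : P → ℕ × (Finset ℕ × Finset ℕ) × (Fin K → ℤ), code = fun x =>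
      (ex x, (Bs (lowS x (ex x + 2 + s)), Cs (lowS x (ex x + 2 + s))),
        fun p => ⌊val x p * 2 ^ (2 * N + 11)⌋) := ⟨_, rfl⟩
  have hcode : ∀ x ∈ S, code x ∈ T := by
    intro x hx
    obtain ⟨he1, he2, he3⟩ := hex x hx
    have hPA := PA_lowS hP (J := J) (E := ex x + 2 + s) (by omega) (hSlight x hx)
    have hsum : ∑ a ∈ lowS x (ex x + 2 + s), (ex x - Nat.log 2 a) < s * s := by
      rw [← hNs]
      exact lt_of_le_of_lt (sum_lowS hP x _ _) he3
    have hlt : ∀ a ∈ lowS x (ex x + 2 + s), 1 ≤ a ∧ a < 2 ^ (N + s + 1) := by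
      intro a ha
      obtain ⟨b1, b2, _⟩ := lowS_lt ha
      exact ⟨b1, lt_of_lt_of_le b2 (Nat.pow_le_pow_right (by norm_num) (by omega))⟩
    have hlog : ∀ a ∈ lowS x (ex x + 2 + s), Nat.log 2 a < ex x + 2 + s :=
      fun a ha => (lowS_lt ha).2.2
    rw [hT, hcd, Finset.mem_product, Finset.mem_product, Finset.mem_product]
    refine ⟨Finset.mem_range.2 (show ex x < N by omega), ⟨?_, ?_⟩, ?_⟩
    · apply mem_SetsK
      · have := card_le_of_log (X := Bs (lowS x (ex x + 2 + s))) (Finset.filter_subset _ _)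
          (injOn_Bs hPA zero_notMem_lowS) hlog hsum
        refine this.trans ?_
        omega
      · intro a ha
        exact hlt a (mem_Bs.1 ha).1
    · apply mem_SetsK
      · have := card_le_of_log (X := Cs (lowS x (ex x + 2 + s))) (Finset.filter_subset _ _)
          (injOn_Cs hPA zero_notMem_lowS) hlog hsum
        refine this.trans ?_
        omega
      · intro a ha
        exact hlt a (mem_Cs.1 ha).1
    rw [Fintype.mem_piFinset]
    intro p
    rw [Finset.mem_Icc]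
    have h2 : |val x p * 2 ^ (2 * N + 11)| ≤ 2 ^ (4 * N + s + 16) := by
      rw [abs_mul, abs_of_pos (by positivity : (0 : ℝ) < 2 ^ (2 * N + 11))]
      calc |val x p| * 2 ^ (2 * N + 11) ≤ 2 ^ (2 * N + s + 5) * 2 ^ (2 * N + 11) :=
            mul_le_mul_of_nonneg_right (hvalb x hx p) (by positivity)
        _ = 2 ^ (4 * N + s + 16) := by rw [← pow_add]; congr 1; ring
    rw [abs_le] at h2
    constructor
    · show -M ≤ ⌊val x p * 2 ^ (2 * N + 11)⌋
      rw [Int.le_floor, hM]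
      push_cast
      exact h2.1
    · have h3 : ((⌊val x p * 2 ^ (2 * N + 11)⌋ : ℤ) : ℝ) ≤ ((M : ℤ) : ℝ) :=
        (Int.floor_le _).trans (by rw [hM]; push_cast; exact h2.2)
      exact Int.cast_le.1 h3
  have hTcard : T.card < S.card := by
    have h1 : T.card ≤ N * ((2 ^ ((N + s + 1) * (3 * s + 2)) * 2 ^ ((N + s + 1) * (3 * s + 2))) *
        (2 * 2 ^ (4 * N + s + 16) + 1) ^ (3 * s + 14)) := by
      rw [hT, Finset.card_product, Finset.card_product, Finset.card_product, Fintype.card_piFinset,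
        Finset.card_range]
      apply Nat.mul_le_mul_left
      apply Nat.mul_le_mul (Nat.mul_le_mul (card_SetsK _ _) (card_SetsK _ _))
      simp only [Int.card_Icc, Finset.prod_const, Finset.card_univ, Fintype.card_fin]
      rw [hK]
      apply Nat.pow_le_pow_left
      rw [hM]
      have : ((2 : ℤ) ^ (4 * N + s + 16) + 1 - -2 ^ (4 * N + s + 16)) =
          ((2 * 2 ^ (4 * N + s + 16) + 1 : ℕ) : ℤ) := by
        push_cast
        ring
      rw [this, Int.toNat_natCast]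
    have h2 := card_ineq3 s hs
    rw [← hNs] at h2
    by_contra hcon
    rw [not_lt] at hcon
    have h3 : Lv.card < 2 ^ (500 * s ^ 3) := by
      refine lt_of_le_of_lt (hSc.trans ?_) h2
      rw [hJ]
      exact Nat.mul_le_mul_left _ (hcon.trans h1)
    omega
  obtain ⟨x, hx, y, hy, hxy, hxyc⟩ :=
    Finset.exists_ne_map_eq_of_card_lt_of_maps_to hTcard hcode
  rw [hcd] at hxyc
  have hc1 : ex x = ex y := congrArg Prod.fst hxyc
  have hc2 : Bs (lowS x (ex x + 2 + s)) = Bs (lowS y (ex y + 2 + s)) :=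
    congrArg (fun z => z.2.1.1) hxyc
  have hc2' : Cs (lowS x (ex x + 2 + s)) = Cs (lowS y (ex y + 2 + s)) :=
    congrArg (fun z => z.2.1.2) hxyc
  have hc3 : (fun p => ⌊val x p * 2 ^ (2 * N + 11)⌋) = fun p => ⌊val y p * 2 ^ (2 * N + 11)⌋ :=
    congrArg (fun z => z.2.2) hxyc
  have hlowE : lowS x (ex x + 2 + s) = lowS y (ex x + 2 + s) := by
    have := det zero_notMem_lowS zero_notMem_lowS hc2 hc2'
    rw [this, hc1]
  have hlow : lowS x (ex x) = lowS y (ex x) := by
    have key : ∀ z : P, lowS z (ex x) = (lowS z (ex x + 2 + s)).filter (fun k => Nat.log 2 k < ex x) := by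
      intro z
      ext k
      rw [Finset.mem_filter, mem_lowS, mem_lowS]
      constructor
      · rintro ⟨u, h1, h2, rfl⟩
        exact ⟨⟨u, h1, by omega, rfl⟩, h2⟩
      · rintro ⟨⟨u, h1, h2, rfl⟩, h3⟩
        exact ⟨u, h1, h3, rfl⟩
    rw [key x, key y, hlowE]
  have hclose : ∀ p, |val x p - val y p| ≤ (1 / 2) ^ (2 * N + 11) := by
    intro p
    have h2 := Int.abs_sub_lt_one_of_floor_eq_floor (congrFun hc3 p)
    rw [← sub_mul, abs_mul, abs_of_pos (by positivity : (0 : ℝ) < 2 ^ (2 * N + 11))] at h2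
    rw [one_div_pow, le_div_iff₀ (by positivity)]
    exact h2.le
  obtain ⟨he1, he2, he3⟩ := hex x hx
  have hδpos : (0 : ℝ) < (1 / 2) ^ (2 * N + 11) := by positivity
  have hA := caseA2 hP (hSm x hx) (hSm y hy) hxy (J := J) (e := ex x) (n := N + 5)
    (N := N) (hSJ x hx y hy hxy) (by omega) he1 (by omega) (δ := (1 / 2) ^ (2 * N + 11))
    (pow_lt_one₀ (by norm_num) (by norm_num) (by omega)) hlow ?_ ?_
    (pow_ineq2 N) he2
  · exact ⟨x, y, hA⟩
  · intro j h1 h2 r hr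
    rw [mom_eq hP hlowE (by omega), sub_self, abs_zero]
    positivity
  · intro r h1 h2
    rcases lt_or_ge r K with h3 | h3
    · have h4 := hclose ⟨r, h3⟩
      rw [hval, vala_eq h1 h3, vala_eq h1 h3, ← hc1, sub_sub_sub_cancel_right] at h4
      exact h4
    · refine (hps_close hP hs hlowE (by omega)).trans ?_
      have h5 : 3 * N + 13 ≤ s * (r - 1) := by
        have h6 : 3 * s + 13 ≤ r - 1 := by omega
        calc 3 * N + 13 ≤ s * (3 * s + 13) := by rw [hNs]; nlinarith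
          _ ≤ s * (r - 1) := Nat.mul_le_mul_left _ h6
      calc (2 : ℝ) ^ (ex x + 3) * (1 / 2) ^ (s * (r - 1)) ≤ 2 ^ (N + 2) * (1 / 2) ^ (3 * N + 13) := by
            apply mul_le_mul _ _ (by positivity) (by positivity)
            · exact pow_le_pow_right₀ (by norm_num) (by omega)
            · exact pow_le_pow_of_le_one (by norm_num) (by norm_num) h5
        _ = (1 / 2) ^ (2 * N + 11) := by
            rw [show 3 * N + 13 = (N + 2) + (2 * N + 11) by ring,
              pow_add (1 / 2 : ℝ) (N + 2) (2 * N + 11), ← mul_assoc, ← mul_pow]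
            norm_num

/-- **forests with a large antichain** -/
theorem forest_balance3 (hP : Forest P) (s : ℕ) (hs : 1 ≤ s) (S : Finset P)
    (hS : ∀ x ∈ S, ∀ y ∈ S, x ≤ y → x = y) (hc : 2 ^ (500 * s ^ 3) ≤ S.card) :
    ∃ x y : P, ¬ x ≤ y ∧ ¬ y ≤ x ∧ |prob P x y - 1 / 2| ≤ (1 / 2) ^ (s * s) := by
  classical
  have hmax : ∀ x : P, ∃ z, x ≤ z ∧ ∀ v, z ≤ v → v = z := by
    intro x
    obtain ⟨z, hz⟩ := (univ.filter (fun z => x ≤ z)).exists_maximal ⟨x, by simp⟩
    have h1 := hz.1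
    simp only [Finset.mem_filter, Finset.mem_univ, true_and] at h1
    refine ⟨z, h1, fun v hv => ?_⟩
    exact le_antisymm (hz.2 (by simpa using h1.trans hv) hv) hv
  choose g hg1 hg2 using hmax
  have hinj : Set.InjOn g S := by
    intro x hx y hy h
    rcases hP (g x) x y (hg1 x) (h ▸ hg1 y) with h1 | h1
    · exact hS x hx y hy h1
    · exact (hS y hy x hx h1).symm
  refine many_leaves3 hP s hs (S.image g) ?_ ?_
  · intro z hz v hv
    rw [Finset.mem_image] at hz
    obtain ⟨x, _, rfl⟩ := hz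
    exact hg2 x v hv
  · rw [Finset.card_image_of_injOn hinj]
    exact hc

end Pool.Agent.H34.FP
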